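import Pool.Agent.helper92.RC.Spec

/-!
# rc:LJ: joins of three normal subgroups
-/

set_option autoImplicit false

namespace Pool.Agent.helper92.RC

open scoped commutatorElement

universe u

theorem LJ_anti {H : Type u} [Group H] (C : ℕ → Subgroup H) (hC : IsCh C) (d r : ℕ) (h : r ≤ d) : C d ≤ C r := by
  induction d with
  | zero =>
    have : r = 0 := by omega
    rw [this]
  | succ d ih =>
    rcases Nat.lt_or_ge d r with h1 | h1
    · have : r = d + 1 := by omega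
      rw [this]
    · exact (hC.2 d).1.trans (ih h1)

/-- the joins -/
def LJ_T {H : Type u} [Group H] (C : ℕ → Subgroup H) (N : Fin 3 → Subgroup H) (r : ℕ) : Subgroup H := ⨆ s, C r ⊓ N s

theorem LJ_norm {H : Type u} [Group H] (C : ℕ → Subgroup H) (hC : IsCh C) (N : Fin 3 → Subgroup H)
    (hN : ∀ s, (N s).Normal) (r : ℕ) (y : H) (hy : y ∈ C r) (t : H) (ht : t ∈ LJ_T C N (r + 1)) :
    y * t * y⁻¹ ∈ LJ_T C N (r + 1) := by
  unfold LJ_T at ht
  refine Subgroup.iSup_induction (fun s => C (r + 1) ⊓ N s) (C := fun t => y * t * y⁻¹ ∈ LJ_T C N (r + 1)) ht ?_ ?_ ?_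
  · intro s x hx
    have h1 : y * x * y⁻¹ ∈ C (r + 1) ⊓ N s :=
      Subgroup.mem_inf.2 ⟨(hC.2 r).2 x (Subgroup.mem_inf.1 hx).1 y hy, (hN s).conj_mem x (Subgroup.mem_inf.1 hx).2 y⟩
    exact Subgroup.mem_iSup_of_mem s h1
  · simp only [mul_one, mul_inv_cancel]
    exact one_mem _
  · intro a b ha hb
    have e : y * (a * b) * y⁻¹ = (y * a * y⁻¹) * (y * b * y⁻¹) := by group
    rw [e]
    exact mul_mem ha hb

theorem LJ_com {H : Type u} [Group H] (C : ℕ → Subgroup H) (hC : IsCh C) (N : Fin 3 → Subgroup H)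
    (hN : ∀ s, (N s).Normal) (r : ℕ) (k : H) (hk : k ∈ C (r + 1)) (t : H) (ht : t ∈ LJ_T C N r) :
    ⁅k, t⁆ ∈ LJ_T C N (r + 1) := by
  unfold LJ_T at ht
  refine (Subgroup.iSup_induction (fun s => C r ⊓ N s) (C := fun t => t ∈ C r ∧ ⁅k, t⁆ ∈ LJ_T C N (r + 1)) ht ?_ ?_ ?_).2
  · intro s x hx
    obtain ⟨hx1, hx2⟩ := Subgroup.mem_inf.1 hx
    refine ⟨hx1, ?_⟩
    have h1 : ⁅k, x⁆ ∈ C (r + 1) ⊓ N s := by
      refine Subgroup.mem_inf.2 ⟨?_, ?_⟩
      · have e : ⁅k, x⁆ = k * (x * k⁻¹ * x⁻¹) := by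
          rw [commutatorElement_def]
          group
        rw [e]
        exact mul_mem hk ((hC.2 r).2 _ (inv_mem hk) x hx1)
      · rw [commutatorElement_def]
        exact mul_mem ((hN s).conj_mem x hx2 k) (inv_mem hx2)
    exact Subgroup.mem_iSup_of_mem s h1
  · refine ⟨one_mem _, ?_⟩
    rw [commutatorElement_one_right]
    exact one_mem _
  · rintro a b ⟨ha1, ha2⟩ ⟨hb1, hb2⟩
    refine ⟨mul_mem ha1 hb1, ?_⟩
    have e : ⁅k, a * b⁆ = ⁅k, a⁆ * (a * ⁅k, b⁆ * a⁻¹) := by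
      simp only [commutatorElement_def]
      group
    rw [e]
    exact mul_mem ha2 (LJ_norm C hC N hN r a ha1 _ hb2)

theorem LJ : FZ_stmt.{u} → LJ_stmt.{u} := by
  intro hFZ F _ _ H _ C d hC f hf N hN x hx hxN
  have key : ∀ r, r ≤ d → ∃ x : C d, (x : H) ∈ LJ_T C N r ∧ f x ≠ 1 := by
    intro r
    induction r with
    | zero =>
      intro _
      refine ⟨x, ?_, hx⟩
      unfold LJ_T
      rw [hC.1]
      simpa using hxN
    | succ r ih =>
      intro hr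
      obtain ⟨x1, hx1, hfx1⟩ := ih (by omega)
      obtain ⟨y, hy, hyx⟩ := hFZ F f.range hf (f x1) ⟨x1, rfl⟩ hfx1
      obtain ⟨k, hk⟩ := hy
      refine ⟨⁅k, x1⁆, ?_, ?_⟩
      · have hkC : (k : H) ∈ C (r + 1) := LJ_anti C hC d (r + 1) hr k.2
        exact LJ_com C hC N hN r k hkC x1 hx1
      · rw [map_commutatorElement, hk]
        exact hyx
  obtain ⟨z, hz, hfz⟩ := key d le_rfl
  by_contra hcon
  push Not at hcon
  have h1 : LJ_T C N d ≤ f.ker.map (C d).subtype := by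
    unfold LJ_T
    refine iSup_le fun s => ?_
    intro y hy
    obtain ⟨hy1, hy2⟩ := Subgroup.mem_inf.1 hy
    exact ⟨⟨y, hy1⟩, hcon s ⟨y, hy1⟩ hy2, rfl⟩
  obtain ⟨z', hz', he⟩ := h1 hz
  have h2 : z' = z := Subtype.ext he
  rw [h2] at hz'
  exact hfz hz'

end Pool.Agent.helper92.RC
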